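import Pool.Agent.Work.MP_73869e_nt.Fin

set_option autoImplicit false

open MeasureTheory ProbabilityTheory Filter

namespace Pool.Agent.Results.MP_73869e_nt.CramerQ1

open Pool.Agent.Work.MP_73869e_nt

universe u

/-- In Cramér's random model (independent events `A m`, of probability `1 / log m` for `m ≥ 3`)
the assertion of the problem, with its threshold 4765516, holds with probability less than
1/20000. -/
theorem result :
    (∀ (Ω : Type u) [MeasurableSpace Ω] (μ : Measure Ω) [IsProbabilityMeasure μ]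
        (A : ℕ → Set Ω), (∀ m, MeasurableSet (A m)) → iIndepSet A μ →
        (∀ m : ℕ, 3 ≤ m → μ (A m) = ENNReal.ofReal (1 / Real.log m)) →
      μ {ω | ∀ n : ℕ, 4765516 < n → ∃ m : ℕ, n ^ 2 < m ∧
        (m : ℝ) ≤ (n : ℝ) ^ 2 + (Real.logb 2 n) ^ 2 ∧ ω ∈ A m} < 1 / 20000) ∧
    (∃ (Ω : Type) (_ : MeasurableSpace Ω) (μ : Measure Ω) (_ : IsProbabilityMeasure μ)
        (A : ℕ → Set Ω), (∀ m, MeasurableSet (A m)) ∧ iIndepSet A μ ∧
        (∀ m : ℕ, 3 ≤ m → μ (A m) = ENNReal.ofReal (1 / Real.log m))) := by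
  constructor
  · intro Ω _ μ _ A hmeas hind hp
    have h1 := cramer_prob μ A hmeas hind hp
    have h2 : {ω | ∀ n : ℕ, 4765516 < n → ∃ m : ℕ, n ^ 2 < m ∧
        (m : ℝ) ≤ (n : ℝ) ^ 2 + (Real.logb 2 n) ^ 2 ∧ ω ∈ A m} =
        {ω | ∀ n : ℕ, 4765516 < n → ∃ m ∈ win c0 n, ω ∈ A m} := by
      ext ω
      constructor
      · intro h n hn
        obtain ⟨m, h3, h4, h5⟩ := h n hn
        exact ⟨m, (mem_win_logb n m).2 ⟨h3, h4⟩, h5⟩
      · intro h n hn
        obtain ⟨m, h3, h5⟩ := h n hn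
        obtain ⟨h6, h7⟩ := (mem_win_logb n m).1 h3
        exact ⟨m, h6, h7, h5⟩
    rw [h2]
    refine lt_of_le_of_lt h1 ?_
    have h3 : Real.exp (-10) < 1 / 20000 := by
      rw [Real.exp_neg, ← one_div]
      apply one_div_lt_one_div_of_lt (by norm_num)
      have h4 : Real.exp 10 = (Real.exp 1) ^ 10 := by rw [← Real.exp_nat_mul]; norm_num
      rw [h4]
      have h5 := Real.exp_one_gt_d9
      calc (20000 : ℝ) < 2.7182818283 ^ 10 := by norm_num
        _ ≤ (Real.exp 1) ^ 10 := pow_le_pow_left₀ (by norm_num) h5.le 10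
    calc ENNReal.ofReal (Real.exp (-10)) < ENNReal.ofReal (1 / 20000) :=
          (ENNReal.ofReal_lt_ofReal_iff (by norm_num)).2 h3
      _ = 1 / 20000 := by
          rw [ENNReal.ofReal_div_of_pos (by norm_num)]
          norm_num
  · obtain ⟨Ω, i1, μ, i2, A, h1, h2, h3⟩ := exists_model' cram
    exact ⟨Ω, i1, μ, i2, A, h1, h2, fun m hm => h3 m (hcram m hm).1 (hcram m hm).2⟩

end Pool.Agent.Results.MP_73869e_nt.CramerQ1
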