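import Pool.Agent.Work.MP_73869e_nt.Fin

set_option autoImplicit false

open MeasureTheory ProbabilityTheory Filter

namespace Pool.Agent.Results.MP_73869e_nt.CramerThreshold

open Pool.Agent.Work.MP_73869e_nt

universe u

/-- In Cramér's random model of the primes the exact threshold for the windows
`(n², n² + c (log n)²]` is `c = 2`; in particular almost surely only finitely many of the windows
`(n², n² + (log₂ n)²]` of the problem contain no random prime. -/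
theorem result :
    (∀ c : ℝ, 2 < c →
      ∀ (Ω : Type u) [MeasurableSpace Ω] (μ : Measure Ω) [IsProbabilityMeasure μ]
        (A : ℕ → Set Ω), IsModel μ A cram →
      ∀ᵐ ω ∂μ, ∀ᶠ n : ℕ in atTop, ∃ m : ℕ, n ^ 2 < m ∧
        (m : ℝ) ≤ (n : ℝ) ^ 2 + c * (Real.log n) ^ 2 ∧ ω ∈ A m) ∧
    (∀ c : ℝ, c ≤ 2 →
      ∀ (Ω : Type u) [MeasurableSpace Ω] (μ : Measure Ω) [IsProbabilityMeasure μ]
        (A : ℕ → Set Ω), IsModel μ A cram →
      ∀ᵐ ω ∂μ, ∃ᶠ n : ℕ in atTop, ∀ m : ℕ, n ^ 2 < m →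
        (m : ℝ) ≤ (n : ℝ) ^ 2 + c * (Real.log n) ^ 2 → ω ∉ A m) ∧
    (∀ (Ω : Type u) [MeasurableSpace Ω] (μ : Measure Ω) [IsProbabilityMeasure μ]
        (A : ℕ → Set Ω), IsModel μ A cram →
      ∀ᵐ ω ∂μ, ∀ᶠ n : ℕ in atTop, ∃ m : ℕ, n ^ 2 < m ∧
        (m : ℝ) ≤ (n : ℝ) ^ 2 + (Real.logb 2 n) ^ 2 ∧ ω ∈ A m) ∧
    (∃ (Ω : Type) (_ : MeasurableSpace Ω) (μ : Measure Ω) (_ : IsProbabilityMeasure μ)
        (A : ℕ → Set Ω), IsModel μ A cram) := by
  have hd : ∀ᶠ m : ℕ in atTop, 0 ≤ cram m ∧ cram m ≤ 1 :=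
    (eventually_ge_atTop 3).mono fun m hm => hcram m hm
  refine ⟨?_, ?_, ?_, exists_model _ hd⟩
  · intro c hc Ω _ μ _ A hM
    filter_upwards [ae_hit μ A _ hM (win c) (win_large c) hd (cram_summable hc)] with ω hω
    refine hω.mono fun n hn => ?_
    obtain ⟨m, hm, hmA⟩ := hn
    obtain ⟨h1, h2⟩ := (mem_win (by linarith) n m).1 hm
    exact ⟨m, h1, h2, hmA⟩
  · intro c hc Ω _ μ _ A hM
    filter_upwards [ae_miss μ A _ hM (win c) (win_large c) (win_disjoint c) hd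
      (cram_not_summable hc)] with ω hω
    exact hω.mono fun n hn m h1 h2 => hn m (mem_win_of_le h1 h2)
  · intro Ω _ μ _ A hM
    filter_upwards [ae_hit μ A _ hM (win c0) (win_large c0) hd (cram_summable c0_gt)] with ω hω
    refine hω.mono fun n hn => ?_
    obtain ⟨m, hm, hmA⟩ := hn
    obtain ⟨h1, h2⟩ := (mem_win_logb n m).1 hm
    exact ⟨m, h1, h2, hmA⟩

end Pool.Agent.Results.MP_73869e_nt.CramerThreshold
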