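import Mathlib

set_option autoImplicit false

namespace Pool.Agent.Results.MP_73869e_nt.NearMiss

/-- checks that each entry of the list divides the corresponding number of the run starting at the first argument -/
def chk : ℕ → List ℕ → Bool
  | _, [] => true
  | m, d :: ds => (m % d == 0) && Nat.blt 1 d && Nat.blt d m && chk (m + 1) ds

theorem chk_spec : ∀ (l : List ℕ) (m : ℕ), chk m l = true → ∀ i < l.length, ¬ Nat.Prime (m + i)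
  | [], _, _, i, hi => absurd hi (by simp)
  | d :: ds, m, h, i, hi => by
    simp only [chk, Bool.and_eq_true, beq_iff_eq, Nat.blt_eq] at h
    obtain ⟨⟨⟨h1, h2⟩, h3⟩, h4⟩ := h
    rcases i with _ | i
    · intro hp
      have hd : d ∣ m := Nat.dvd_of_mod_eq_zero h1
      rcases (Nat.dvd_prime hp).1 (by simpa using hd) with h | h
      · omega
      · simp at h; omega
    · have := chk_spec ds (m + 1) h4 i (by simpa using hi)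
      rwa [show m + (i + 1) = m + 1 + i by ring]

def facs : List ℕ := [5, 2, 13, 2, 3, 2, 66931, 2, 4652117, 2, 3, 2, 7, 2, 19, 2, 3, 2, 353, 2, 5, 2, 3, 2, 61, 2, 7, 2, 3, 2, 5, 2, 3851747, 2, 3, 2, 101, 2, 181, 2, 3, 2, 11, 2, 281, 2, 3, 2, 409, 2, 5, 2, 3, 2, 7, 2, 1031, 2, 3, 2, 5, 2, 33091, 2, 3, 2, 31702589, 2, 7, 2, 3, 2, 43, 2, 2467, 2, 3, 2, 263, 2, 5, 2, 3, 2, 83, 2, 11, 2, 3, 2, 5, 2, 3169, 2, 3, 2, 7, 2, 66071, 2, 3, 2, 941, 2, 359, 2, 3, 2, 11, 2, 5, 2, 3, 2, 31, 2, 37573, 2, 3, 2, 5, 2, 17, 2, 3, 2, 3593, 2, 19, 2, 3, 2, 13, 2, 47, 2, 3, 2, 7, 2, 5, 2, 3, 2, 271, 2, 61, 2, 3, 2, 5, 2, 7, 2, 3, 2, 17, 2, 13, 2, 3, 2, 523, 2, 1021, 2, 3, 2, 41, 2, 5, 2, 3, 2, 11, 2, 31, 2, 3, 2, 5, 2, 71, 2, 3, 2, 322105513, 2, 356453, 2, 3, 2, 2939, 2, 7, 2, 3, 2, 23,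 2, 5, 2, 3, 2, 19, 2, 761, 2, 3, 2, 5, 2, 2731, 2, 3, 2, 439, 2, 11, 2, 3, 2, 7, 2, 17, 2, 3, 2, 47, 2, 5, 2, 3, 2, 79, 2, 7, 2, 3, 2, 5, 2, 19, 2, 3, 2, 251, 2, 37, 2, 3, 2, 569, 2, 563, 2, 3, 2, 17, 2, 5, 2, 3, 2, 7, 2, 97, 2, 3, 2, 5, 2, 1579, 2, 3, 2, 127, 2, 7, 2, 3, 2, 29, 2, 11, 2, 3, 2, 13, 2, 5, 2, 3, 2, 87193904293, 2, 197, 2, 3, 2, 5, 2, 149, 2, 3, 2, 7, 2, 53, 2, 3, 2, 59, 2, 13, 2, 3, 2, 19, 2, 5, 2, 3, 2, 71, 2, 17, 2, 3, 2, 5, 2, 41, 2, 3, 2, 23, 2, 797, 2, 3, 2, 4481537, 2, 231019715567, 2, 3, 2, 7, 2, 5, 2, 3, 2, 51043, 2, 19, 2, 3, 2, 5, 2, 7, 2, 3, 2, 13, 2, 1678871, 2, 3, 2, 11, 2, 137, 2, 3, 2, 103, 2, 5, 2, 3, 2, 199, 2, 139, 2, 3, 2, 5, 2, 13, 2, 3, 2, 37, 2, 29, 2, 3, 2, 185306750771, 2, 7, 2, 3, 2, 1419389, 2, 5, 2, 3, 2, 41, 2, 11, 2, 3,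 2, 5, 2, 18413, 2, 3, 2, 5557, 2, 17, 2, 3, 2, 7, 2, 186135289, 2, 3, 2, 11, 2, 5, 2, 3, 2, 13, 2, 7, 2, 3, 2, 5, 2, 272260167703, 2, 3, 2, 29, 2, 131, 2, 3, 2, 17, 2, 191, 2, 3, 2, 8663, 2, 5, 2, 3, 2, 7, 2, 179, 2, 3, 2, 5, 2, 11, 2, 3, 2, 31, 2, 7, 2, 3, 2, 4621, 2, 331, 2, 3, 2, 2053, 2, 5, 2, 3, 2, 11, 2, 661, 2, 3, 2, 5, 2, 61, 2, 3, 2, 7, 2, 4210893671, 2, 3, 2, 13, 2, 367, 2, 3, 2, 109841929, 2, 5, 2, 3, 2, 1811, 2, 252166582123, 2, 3, 2, 5, 2, 166946481937, 2, 3, 2, 19, 2, 11, 2, 3, 2, 631, 2, 89, 2, 3, 2, 7, 2, 5, 2, 3, 2, 17, 2, 23, 2, 3, 2, 5, 2, 7, 2, 3, 2, 907, 2, 41, 2, 3, 2, 83, 2, 19, 2, 3, 2, 43, 2, 5, 2, 3, 2, 317, 2, 157, 2, 3, 2, 5, 2, 419, 2, 3, 2, 281, 2, 71, 2, 3, 2, 23, 2, 7, 2, 3, 2, 37, 2, 5, 2, 3, 2, 25904731493, 2, 13, 2, 3, 2, 5, 2,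 17, 2, 3, 2, 11, 2, 602033, 2, 3, 2, 7, 2, 557, 2, 3, 2, 137, 2, 5, 2, 3, 2, 97, 2, 7, 2, 3, 2, 5, 2, 433, 2, 3, 2, 17, 2, 27647, 2, 3, 2, 31, 2, 43, 2, 3, 2, 13, 2, 5, 2, 3, 2, 7, 2, 271, 2, 3, 2, 5, 2, 37, 2, 3, 2, 107, 2, 7, 2, 3, 2, 11, 2, 13, 2, 3, 2, 79, 2, 5, 2, 3, 2, 18749, 2, 383, 2, 3, 2, 5, 2, 227, 2, 3, 2, 7, 2, 829, 2, 3, 2, 53, 2, 17, 2, 3, 2, 113, 2, 5, 2, 3, 2, 20644627, 2, 11, 2, 3, 2, 5, 2, 3181, 2, 3, 2, 13, 2, 769, 2, 3, 2, 181, 2, 67, 2, 3, 2, 7, 2, 5, 2, 3, 2, 19, 2, 5856967, 2, 3, 2, 5, 2, 7, 2, 3, 2, 312452692103, 2, 6361, 2, 3, 2, 47, 2, 397, 2, 3, 2, 681788911, 2, 5, 2, 3, 2, 29, 2, 2437, 2, 3, 2, 5, 2, 11, 2, 3, 2, 260717, 2, 186245858921, 2, 3, 2, 359, 2, 7, 2, 3, 2, 2427869, 2, 5, 2, 3, 2, 11, 2, 17, 2, 3, 2, 5, 2, 23, 2, 3, 2, 43, 2,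 97, 2, 3, 2, 7, 2, 74138101, 2, 3, 2, 31, 2, 5, 2, 3, 2, 39542771087, 2, 7, 2, 3, 2, 5, 2, 241, 2, 3, 2, 58477, 2, 11, 2, 3, 2, 3319, 2, 15319, 2, 3, 2, 19, 2, 5, 2, 3, 2, 7, 2, 658948088299, 2, 3, 2, 5, 2, 59, 2, 3, 2, 41, 2, 7, 2, 3, 2, 13, 2, 37, 2, 3, 2, 1667787899, 2, 5, 2, 3, 2, 12653, 2, 19, 2, 3, 2, 5, 2, 43, 2, 3, 2, 7, 2, 13, 2, 3, 2, 139, 2, 11, 2, 3, 2, 170363, 2, 5, 2, 3, 2, 953, 2, 215944117, 2, 3, 2, 5, 2, 1657, 2, 3, 2, 11, 2, 587, 2, 3, 2, 17, 2, 2131, 2, 3, 2, 7, 2, 5, 2, 3, 2, 2885161523, 2, 78967729, 2, 3, 2, 5, 2, 7, 2, 3, 2, 103, 2, 683566156711, 2, 3, 2, 19, 2, 4523, 2, 3, 2, 874271, 2, 5, 2, 3, 2, 220511, 2, 13, 2, 3, 2, 5, 2, 7589, 2, 3, 2, 23, 2, 193, 2, 3, 2, 11, 2, 7, 2, 3, 2, 127, 2, 5, 2, 3, 2, 31, 2, 73, 2, 3, 2, 5, 2, 269, 2, 3, 2,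 599, 2, 461, 2, 3, 2, 7, 2, 277847179, 2, 3, 2, 13, 2, 5, 2, 3, 2, 17, 2, 7, 2, 3, 2, 5, 2, 727, 2, 3, 2, 211, 2, 89, 2, 3, 2, 431, 2, 13, 2, 3, 2, 11, 2, 5, 2, 3, 2, 7, 2, 31, 2, 3, 2, 5, 2, 2003, 2, 3, 2, 19, 2, 7, 2, 3, 2, 61, 2, 107, 2, 3, 2, 30226351, 2, 5, 2, 3, 2, 11689, 2, 37, 2, 3, 2, 5, 2, 11, 2, 3, 2, 7, 2, 283, 2, 3, 2, 29, 2, 19, 2, 3, 2, 401, 2, 5, 2, 3, 2, 11, 2, 67, 2, 3, 2, 5, 2, 13, 2, 3, 2, 17, 2, 1051, 2, 3, 2, 79, 2, 647, 2, 3, 2, 7, 2, 5, 2, 3, 2, 787, 2, 137, 2, 3, 2, 5, 2, 7, 2, 3, 2, 6317, 2, 11, 2, 3, 2, 160033, 2, 54217997, 2, 3, 2, 1249, 2, 5, 2, 3, 2, 13, 2, 99119, 2, 3, 2, 5, 2, 2001953, 2, 3, 2, 97, 2, 4177, 2, 3, 2, 163, 2, 7, 2, 3, 2, 101, 2, 5, 2, 3, 2, 311, 2, 23, 2, 3, 2, 5, 2, 47, 2, 3, 2, 89, 2, 19, 2, 3, 2, 7, 2, 11, 2, 3, 2,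 17, 2, 5, 2, 3, 2, 37, 2, 7, 2, 3, 2, 5, 2, 31, 2, 3, 2, 11, 2, 30352061, 2, 3, 2, 13, 2, 35569778141, 2, 3, 2, 2609, 2, 5, 2, 3, 2, 7, 2, 41, 2, 3, 2, 5, 2, 19515494521, 2, 3, 2, 29, 2, 7, 2, 3, 2, 176307343, 2, 109, 2, 3, 2, 73, 2, 5, 2, 3, 2, 19, 2, 17, 2, 3, 2, 5, 2, 167, 2, 3, 2, 7, 2, 37, 2, 3, 2, 11, 2, 38273, 2, 3, 2, 53, 2, 5, 2, 3, 2, 59, 2, 627172621, 2, 3, 2, 5, 2, 19, 2, 3, 2, 151, 2, 541, 2, 3, 2, 643, 2, 23, 2, 3, 2, 7, 2, 5, 2, 3, 2, 7723, 2, 11, 2, 3, 2, 5, 2, 7, 2, 3, 2, 31, 2, 12203, 2, 3, 2, 20664189683, 2, 3039770819, 2, 3, 2, 11, 2, 5, 2, 3, 2, 67, 2, 6377339, 2, 3, 2, 5, 2, 29, 2, 3, 2]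

theorem facs_len : facs.length = 1446 := by decide +kernel

theorem facs_ok : chk (843350265218 ^ 2 + 1) facs = true := by decide +kernel

theorem log_bound : Real.logb 2 (843350265218 : ℝ) ≤ 1347 / 34 := by
  rw [Real.logb_le_iff_le_rpow (by norm_num) (by norm_num)]
  have h0 : (843350265218 ^ 34 : ℕ) ≤ 2 ^ 1347 := by decide +kernel
  have h : ((843350265218 : ℝ)) ^ (34 : ℕ) ≤ (2 : ℝ) ^ (1347 : ℕ) := by exact_mod_cast h0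
  have h2 : (((2 : ℝ) ^ ((1347 : ℝ) / 34)) ^ (34 : ℕ)) = (2 : ℝ) ^ (1347 : ℕ) := by
    rw [← Real.rpow_natCast, ← Real.rpow_mul (by norm_num), ← Real.rpow_natCast]
    norm_num
  refine le_of_pow_le_pow_left₀ (n := 34) (by norm_num) (by positivity) ?_
  rw [h2]; exact h

/-- The constant `1` of the problem cannot be lowered to `0.9219`: for some `n > 4765516`
(namely `n = 843350265218`) no prime lies in `(n², n² + 0.9219 (log₂ n)²]`. -/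
theorem result : ∃ n : ℕ, 4765516 < n ∧
    ∀ p : ℕ, p.Prime → n ^ 2 < p → (n : ℝ) ^ 2 + 0.9219 * (Real.logb 2 n) ^ 2 < p := by
  refine ⟨843350265218, by norm_num, ?_⟩
  intro p hp hlt
  have hlb : 0 ≤ Real.logb 2 (843350265218 : ℝ) := Real.logb_nonneg (by norm_num) (by norm_num)
  have h1 := log_bound
  have h2 : (Real.logb 2 (843350265218 : ℝ)) ^ 2 ≤ ((1347 : ℝ) / 34) ^ 2 := pow_le_pow_left₀ hlb h1 2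
  have h3 : 0.9219 * ((1347 : ℝ) / 34) ^ 2 < 1447 := by norm_num
  have h4 : 843350265218 ^ 2 + 1447 ≤ p := by
    by_contra hcon
    obtain ⟨k, hk⟩ : ∃ k, p = 843350265218 ^ 2 + 1 + k := ⟨p - (843350265218 ^ 2 + 1), by omega⟩
    have hk2 : k < facs.length := by
      rw [facs_len]
      omega
    exact chk_spec facs _ facs_ok k hk2 (hk ▸ hp)
  have h5 : ((843350265218 : ℝ)) ^ 2 + 1447 ≤ (p : ℝ) := by exact_mod_cast h4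
  push_cast
  nlinarith

end Pool.Agent.Results.MP_73869e_nt.NearMiss
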